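import Pool.Agent.Helper85_MWGI.HHP

/-!
# Block MWGI: the bit `J 2` gives all edges
-/

set_option autoImplicit false

namespace Pool.Agent.MWGI.H85

open Pool.Agent.Helper14_MV Pool.Agent.Helper2_MV Pool.Agent.MVO Pool.Agent.MWL Pool.Agent.MWS
open Pool.Agent.MWH Pool.Agent.MWGI

section

variable {β : FIC} {n : ℕ}

theorem fm1 (a m : ℕ) (σ : ℕ → List ℕ) (h : σ a = [a]) :
    (List.replicate m a).flatMap σ = List.replicate m a := by
  induction m with
  | zero => rfl
  | succ m ih => rw [List.replicate_succ, List.flatMap_cons, ih, h]; rfl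

/-- the substitution of `x` for `0` and `V` for `2` -/
def sg2 (x : ℕ) (V : List ℕ) (c : ℕ) : List ℕ := if c = 0 then [x] else if c = 2 then V else []

theorem fm0 (x m : ℕ) (V : List ℕ) : (X m).flatMap (sg2 x V) = List.replicate m x := by
  induction m with
  | zero => rfl
  | succ m ih =>
    have : X (m + 1) = 0 :: X m := rfl
    rw [this, List.flatMap_cons, ih]
    rfl

/-- the identity R' -/
theorem r' (hB : BI n (RR β)) (x : ℕ) (V : List ℕ) (m : ℕ) :
    RR β (x :: (V ++ List.replicate (m + 2) x))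
      (List.replicate (n + 1) x ++ (V ++ List.replicate (m + 2) x)) := by
  have h := hB.l.sub (sg2 x V)
  have e1 : ([0, 2, 0, 3, 0] : List ℕ).flatMap (sg2 x V) = x :: (V ++ List.replicate 2 x) := by
    simp [sg2, List.replicate_succ]
  have e2 : (MWZ.X (n + 1) ++ 2 :: (MWZ.X (n + 1) ++ 3 :: MWZ.X (n + 1))).flatMap (sg2 x V) =
      List.replicate (n + 1) x ++ (V ++ List.replicate (2 + n * 2) x) := by
    rw [List.flatMap_append, List.flatMap_cons, List.flatMap_append, List.flatMap_cons]
    have e3 : (MWZ.X (n + 1)).flatMap (sg2 x V) = List.replicate (n + 1) x := fm0 x (n + 1) V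
    rw [e3]
    have e4 : sg2 x V 2 = V := rfl
    have e5 : sg2 x V 3 = [] := rfl
    rw [e4, e5, List.nil_append, show 2 + n * 2 = (n + 1) + (n + 1) by ring,
      List.replicate_add (n + 1) (n + 1) x]
  rw [e1, e2] at h
  have hp := (perx hB 2 (le_refl 2) 2).sub (sg2 x V)
  rw [fm0, fm0] at hp
  have h2 : RR β (x :: (V ++ List.replicate 2 x)) (List.replicate (n + 1) x ++
      (V ++ List.replicate 2 x)) := by
    refine β.trans h (RR.symm ?_)
    have := ctx hp (List.replicate (n + 1) x ++ V) []
    simpa only [List.append_assoc, List.append_nil] using this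
  have h3 := h2.append (RR.refl (List.replicate m x))
  have e6 : List.replicate (m + 2) x = List.replicate 2 x ++ List.replicate m x := by
    rw [show m + 2 = 2 + m by omega, List.replicate_add]
  rw [e6]
  simpa only [List.append_assoc, List.cons_append] using h3

/-- `J 2`, literally -/
theorem j2l (hJ : Has n (FC.ofFIC β) (Bit.J 2)) :
    RR β [0, 2, 0] (0 :: 2 :: X (2 * n + 1)) := by
  have h : RR β (mw 1 (fun _ => 1)) (mw 1 (ad n (fun _ => 1) 1)) := hJ
  have e1 : mw 1 (fun _ => 1) = [0, 2, 0] := rfl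
  have e2 : mw 1 (ad n (fun _ => 1) 1) = 0 :: 2 :: X (2 * n + 1) := by
    show ([0] : List ℕ) ++ 2 :: List.replicate (1 + 2 * n) 0 = _
    rw [Nat.add_comm 1 (2 * n)]
    rfl
  rwa [e1, e2] at h

/-- a light pair is heavy -/
theorem j2b (hB : BI n (RR β)) (hJ : Has n (FC.ofFIC β) (Bit.J 2)) (x : ℕ) (V : List ℕ) :
    RR β (x :: (V ++ [x])) (List.replicate (2 * n + 1) x ++ (V ++ List.replicate (2 * n + 1) x)) := by
  have hn := hB.pos
  have h := (j2l hJ).sub (sg2 x V)
  have e1 : ([0, 2, 0] : List ℕ).flatMap (sg2 x V) = x :: (V ++ [x]) := by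
    simp [sg2]
  have e2 : (0 :: 2 :: X (2 * n + 1)).flatMap (sg2 x V) =
      x :: (V ++ List.replicate (2 * n + 1) x) := by
    rw [List.flatMap_cons, List.flatMap_cons, fm0]
    rfl
  rw [e1, e2] at h
  have e3 : 2 * n + 1 = (2 * n - 1) + 2 := by omega
  have h1 := r' hB x V (2 * n - 1)
  rw [← e3] at h1
  have h2 : RR β (List.replicate (n + 1) x ++ (V ++ List.replicate (2 * n + 1) x))
      (List.replicate (2 * n + 1) x ++ (V ++ List.replicate (2 * n + 1) x)) := by
    have h3 := (RR.refl (β := β) (List.replicate n x)).append h1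
    have e4 : List.replicate n x ++ x :: (V ++ List.replicate (2 * n + 1) x) =
        List.replicate (n + 1) x ++ (V ++ List.replicate (2 * n + 1) x) := by
      have e0 : List.replicate (n + 1) x = List.replicate n x ++ [x] := List.replicate_succ'
      rw [e0]
      simp only [List.append_assoc, List.cons_append, List.nil_append]
    have e5 : List.replicate n x ++ (List.replicate (n + 1) x ++
        (V ++ List.replicate (2 * n + 1) x)) =
        List.replicate (2 * n + 1) x ++ (V ++ List.replicate (2 * n + 1) x) := by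
      rw [show 2 * n + 1 = n + (n + 1) by omega, List.replicate_add n (n + 1) x,
        List.append_assoc]
    rwa [e4, e5] at h3
  exact β.trans h (β.trans h1 h2)

/-- the period for every letter -/
theorem perc (hB : BI n (RR β)) (x s : ℕ) (hs : 2 ≤ s) (m : ℕ) :
    RR β (List.replicate s x) (List.replicate (s + n * m) x) := by
  have h := (perx hB s hs m).sub (sg2 x [])
  rwa [fm0, fm0] at h

/-- the first one of two occurrences -/
theorem insl (hB : BI n (RR β)) (hJ : Has n (FC.ofFIC β) (Bit.J 2)) (x : ℕ) (V : List ℕ) :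
    RR β (x :: (V ++ [x])) (List.replicate (n + 1) x ++ (V ++ [x])) := by
  have h := j2b hB hJ x V
  have h1 := (RR.refl (β := β) (List.replicate n x)).append h
  have e1 : List.replicate n x ++ x :: (V ++ [x]) = List.replicate (n + 1) x ++ (V ++ [x]) := by
    rw [List.replicate_succ']
    simp
  have e2 : List.replicate n x ++ (List.replicate (2 * n + 1) x ++
      (V ++ List.replicate (2 * n + 1) x)) =
      List.replicate (2 * n + 1 + n * 1) x ++ (V ++ List.replicate (2 * n + 1) x) := by
    rw [show 2 * n + 1 + n * 1 = n + (2 * n + 1) by omega, List.replicate_add n (2 * n + 1) x,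
      List.append_assoc]
  rw [e1, e2] at h1
  have hn := hB.pos
  have h2 := (perc hB x (2 * n + 1) (by omega) 1).append
    (RR.refl (β := β) (V ++ List.replicate (2 * n + 1) x))
  exact β.trans h (β.trans h2 (RR.symm h1))

/-- the last one of two occurrences -/
theorem insr (hB : BI n (RR β)) (hJ : Has n (FC.ofFIC β) (Bit.J 2)) (x : ℕ) (V : List ℕ) :
    RR β (x :: (V ++ [x])) (x :: (V ++ List.replicate (n + 1) x)) := by
  have h := j2b hB hJ x V
  have h1 := h.append (RR.refl (β := β) (List.replicate n x))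
  have e1 : x :: (V ++ [x]) ++ List.replicate n x = x :: (V ++ List.replicate (n + 1) x) := by
    rw [List.replicate_succ]
    simp
  have e2 : (List.replicate (2 * n + 1) x ++ (V ++ List.replicate (2 * n + 1) x)) ++
      List.replicate n x =
      List.replicate (2 * n + 1) x ++ (V ++ List.replicate (2 * n + 1 + n * 1) x) := by
    rw [show 2 * n + 1 + n * 1 = (2 * n + 1) + n by omega, List.replicate_add (2 * n + 1) n x]
    simp only [List.append_assoc]
  rw [e1, e2] at h1
  have hn := hB.pos
  have h2 := (RR.refl (β := β) (List.replicate (2 * n + 1) x ++ V)).append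
    (perc hB x (2 * n + 1) (by omega) 1)
  rw [List.append_assoc, List.append_assoc] at h2
  exact β.trans h (β.trans h2 (RR.symm h1))

/-- a multiple letter may be repeated -/
theorem rai (hB : BI n (RR β)) (hJ : Has n (FC.ofFIC β) (Bit.J 2)) (p q : List ℕ) (x : ℕ)
    (hx : x ∈ p ++ q) : RR β (p ++ x :: q) (p ++ (List.replicate (n + 1) x ++ q)) := by
  rcases List.mem_append.1 hx with h | h
  · obtain ⟨p1, p2, rfl⟩ := List.append_of_mem h
    have := ctx (insr hB hJ x p2) p1 q
    simpa only [List.append_assoc, List.cons_append, List.nil_append] using this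
  · obtain ⟨q1, q2, rfl⟩ := List.append_of_mem h
    have := ctx (insl hB hJ x q1) p q2
    simpa only [List.append_assoc, List.cons_append, List.nil_append] using this

/-- multiple letters commute -/
theorem cmu (hB : BI n (RR β)) (hJ : Has n (FC.ofFIC β) (Bit.J 2)) (p q : List ℕ) (a b : ℕ)
    (ha : a ∈ p ++ q) (hb : b ∈ p ++ q) :
    RR β (p ++ a :: b :: q) (p ++ b :: a :: q) := by
  have hn := hB.pos
  have ha' : a ∈ p ∨ a ∈ q := List.mem_append.1 ha
  have hb' : b ∈ p ∨ b ∈ q := List.mem_append.1 hb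
  have h1 := rai hB hJ p (b :: q) a (by
    rcases ha' with h | h <;> simp [h])
  have h2 := rai hB hJ (p ++ List.replicate (n + 1) a) q b (by
    rcases hb' with h | h <;> simp [h])
  have h3 := hha hB a b (n + 1) (n + 1) (by omega) (by omega) p q
  have h4 := rai hB hJ (p ++ List.replicate (n + 1) b) q a (by
    rcases ha' with h | h <;> simp [h])
  have h5 := rai hB hJ p (a :: q) b (by
    rcases hb' with h | h <;> simp [h])
  rw [List.append_assoc, List.append_assoc] at h2 h4
  exact β.trans h1 (β.trans h2 (β.trans h3 (β.trans (RR.symm h4) (RR.symm h5))))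

/-- `0^s` crosses a multiple letter `1` -/
theorem mvx0 (hB : BI n (RR β)) (hJ : Has n (FC.ofFIC β) (Bit.J 2)) (s : ℕ) :
    ∀ (p q : List ℕ), 1 ∈ p ++ q → 0 ∈ p ++ q →
      RR β (p ++ (X s ++ 1 :: q)) (p ++ 1 :: (X s ++ q)) := by
  induction s with
  | zero => intro p q _ _; simpa using RR.refl (β := β) _
  | succ s ih =>
    intro p q h1 h0
    have h1' : 1 ∈ p ∨ 1 ∈ q := List.mem_append.1 h1
    have h0' : 0 ∈ p ∨ 0 ∈ q := List.mem_append.1 h0
    have e := ih (p ++ [0]) q (by rcases h1' with h | h <;> simp [h]) (by simp)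
    have e2 := cmu hB hJ p (X s ++ q) 0 1 (by rcases h0' with h | h <;> simp [h])
      (by rcases h1' with h | h <;> simp [h])
    have e3 : X (s + 1) = 0 :: X s := rfl
    rw [e3]
    simp only [List.append_assoc, List.cons_append, List.nil_append] at e e2 ⊢
    exact β.trans e e2

theorem mvx (hB : BI n (RR β)) (hJ : Has n (FC.ofFIC β) (Bit.J 2)) (s : ℕ) (hs : 2 ≤ s)
    (p q : List ℕ) (h1 : 1 ∈ p ++ q) :
    RR β (p ++ (X s ++ 1 :: q)) (p ++ 1 :: (X s ++ q)) := by
  obtain ⟨s, rfl⟩ : ∃ s', s = s' + 1 := ⟨s - 1, by omega⟩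
  have h1' : 1 ∈ p ∨ 1 ∈ q := List.mem_append.1 h1
  have e := mvx0 hB hJ s (p ++ [0]) q (by rcases h1' with h | h <;> simp [h]) (by simp)
  have e0 : (0 : ℕ) ∈ X s := by
    rw [List.mem_replicate]
    exact ⟨by omega, rfl⟩
  have e2 := cmu hB hJ p (X s ++ q) 0 1 (by simp [e0]) (by rcases h1' with h | h <;> simp [h])
  have e3 : X (s + 1) = 0 :: X s := rfl
  rw [e3]
  simp only [List.append_assoc, List.cons_append, List.nil_append] at e e2 ⊢
  exact β.trans e e2

/-- the canonical words -/
theorem wz_eq (m i p : ℕ) (Z : ℕ → Bool) (u v : ℕ) :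
    wz m i p Z u v = Function.update (wz m i p Z 0 0) i (X u ++ 1 :: X v) := by
  funext j
  by_cases h : j = i
  · subst h
    rw [Function.update_self]
    unfold wz
    rw [if_pos rfl]
  · rw [Function.update_of_ne h]
    unfold wz
    rw [if_neg h, if_neg h]

/-- the context of the canonical words -/
theorem wz_ctx (m k i p : ℕ) (hi : i ≤ k) (hp : p ≤ k) (hip : i ≠ p) (Z : ℕ → Bool) :
    ∃ P Q : List ℕ, 1 ∈ P ++ Q ∧ ∀ u v, asm k (wz m i p Z u v) = P ++ (X u ++ 1 :: (X v ++ Q)) := by
  refine ⟨pre (wz m i p Z 0 0) i, suf (wz m i p Z 0 0) i (k - i), ?_, ?_⟩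
  · have hm : 1 ∈ wz m i p Z 0 0 p := by
      unfold wz
      rw [if_neg (Ne.symm hip), if_pos rfl]
      simp
    rw [List.mem_append]
    rcases Nat.lt_or_gt_of_ne hip with h | h
    · right
      rw [mem_suf]
      exact Or.inr ⟨p, h, by omega, hm⟩
    · left
      rw [mem_pre]
      exact Or.inr ⟨p, h, hm⟩
  · intro u v
    rw [wz_eq m i p Z u v, asm_update hi]
    simp only [List.append_assoc, List.cons_append]

/-- a power of `0` in a context -/
theorem perq (hB : BI n (RR β)) (s m : ℕ) (hs : 2 ≤ s) (P Q : List ℕ) :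
    RR β (P ++ (X s ++ Q)) (P ++ (X (s + n * m) ++ Q)) :=
  ctx (perx hB s hs m) P Q

/-- all canonical words with the same number of letters mod `n` are related -/
theorem wza (hB : BI n (RR β)) (hJ : Has n (FC.ofFIC β) (Bit.J 2)) (k i p : ℕ) (hi : i ≤ k)
    (hp : p ≤ k) (hip : i ≠ p) (Z : ℕ → Bool) (u v u' v' m m' : ℕ) (h2 : 2 ≤ u + v)
    (h2' : 2 ≤ u' + v') (he : u + v + n * m = u' + v' + n * m') :
    Wz n k i p Z u v u' v' (RR β) := by
  obtain ⟨P, Q, h1, hW⟩ := wz_ctx n k i p hi hp hip Z
  have key : ∀ u v m : ℕ, 2 ≤ u + v →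
      RR β (asm k (wz n i p Z u v)) (P ++ 1 :: (X (u + v + n * m) ++ Q)) := by
    intro u v m h2
    rw [hW]
    have e2 : RR β (P ++ (X u ++ 1 :: (X v ++ Q))) (P ++ 1 :: (X (u + v) ++ Q)) := by
      have h1' : 1 ∈ P ∨ 1 ∈ Q := List.mem_append.1 h1
      by_cases hv : v = 0
      · subst hv
        have := mvx hB hJ u (by omega) P Q h1
        simpa using this
      · have hq : (0 : ℕ) ∈ X v := by
          rw [List.mem_replicate]
          exact ⟨hv, rfl⟩
        have := mvx0 hB hJ u P (X v ++ Q) (by rcases h1' with h | h <;> simp [h]) (by simp [hq])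
        have e : X u ++ (X v ++ Q) = X (u + v) ++ Q := by
          rw [show X (u + v) = X u ++ X v from List.replicate_add _ _ _, List.append_assoc]
        rwa [e] at this
    have e3 := perq hB (u + v) m h2 (P ++ [1]) Q
    simp only [List.append_assoc, List.cons_append, List.nil_append] at e3
    exact β.trans e2 e3
  have a := key u v m h2
  have b := key u' v' m' h2'
  rw [he] at a
  exact β.trans a (RR.symm b)

/-- **J2A** -/
theorem j2a (hB : BI n (RR β)) (hJ : Has n (FC.ofFIC β) (Bit.J 2)) (e : Ed) (he : Good n e) :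
    EdIn n (RR β) e := by
  have hn := hB.pos
  cases e with
  | re k i p =>
    exact wza hB hJ k i p he.1 he.2.1 he.2.2 Za _ _ _ _ 2 0 (by omega) (by omega) (by ring)
  | le k i p =>
    exact wza hB hJ k i p he.1 he.2.1 he.2.2 Za _ _ _ _ 2 0 (by omega) (by omega) (by ring)
  | dz k i p d =>
    exact wza hB hJ k i p he.1 he.2.1 he.2.2.1 Za _ _ _ _ 0 0 (by omega) (by omega) (by ring)
  | s1 =>
    exact cmu hB hJ [] [2, 0, 3, 1] 0 1 (by simp) (by simp)
  | s2 =>
    exact cmu hB hJ [0, 2] [3, 1] 0 1 (by simp) (by simp)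
  | s3 =>
    exact cmu hB hJ [0, 2, 1, 3] [] 0 1 (by simp) (by simp)

end

end Pool.Agent.MWGI.H85
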