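import Pool.Agent.Helper85_MWGI.J2A
import Pool.Agent.Helper48_MWGR.CompB

/-!
# Block MWGI: light letters are kept without `J 2`; the edges `s1`, `s2`, `s3` are join prime
-/

set_option autoImplicit false

namespace Pool.Agent.MWGI.H85

open Pool.Agent.Helper14_MV Pool.Agent.Helper2_MV Pool.Agent.MVO Pool.Agent.MWL Pool.Agent.MWS
open Pool.Agent.MWA Pool.Agent.MWH Pool.Agent.MWGI

/-- larger congruences -/
theorem bi_mono {n : ℕ} {β θ : FIC} (h : β ≤ θ) (hB : BI n (RR β)) : BI n (RR θ) where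
  pos := hB.pos
  per := h _ _ hB.per
  r := h _ _ hB.r
  rn := h _ _ hB.rn
  hh := h _ _ hB.hh
  l := h _ _ hB.l
  it := fun p w w' q x hm => h _ _ (hB.it p w w' q x hm)
  f := fun p q c r x y hm => h _ _ (hB.f p q c r x y hm)
  f' := fun p q c r x y hm => h _ _ (hB.f' p q c r x y hm)
  fe := fun p q w r x a b h1 h2 h3 hm => h _ _ (hB.fe p q w r x a b h1 h2 h3 hm)
  fe' := fun p q w r x a b h1 h2 h3 hm => h _ _ (hB.fe' p q w r x a b h1 h2 h3 hm)

/-- **LKY** -/
theorem lky : ∀ (n : ℕ) (β θ : FIC), MWGR.BasG n β → β ≤ θ → NC2 θ →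
    ¬ Has n (FC.ofFIC θ) (Bit.J 2) → ∀ (k : ℕ) (B B' : ℕ → List ℕ), OkB k B → OkB k B' →
      RR θ (asm k B) (asm k B') → ∀ c, NS k c → ∀ u v, LL2 k (ty B c) u v →
        ∀ j ≤ k, ty B' c j = ty B c j := by
  intro n β θ hb hθ hn hJ k B B' hB hB' hr c hc u v hL j hj
  have hlr : LR n (FC.ofFIC θ) := MWGR.B.lrg n β θ hb hθ
  have hnd : ND (FC.ofFIC θ) := MWHP.Comp.c_MWA_Ndq β θ hb.cap hθ hn
  have h1 : L1 θ k (ty B c) (ty B' c) :=
    MWHP.Comp.c_MVO_One.1 θ k B B' c hc hB.ok hB'.ok hr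
  have hna : ¬ Ab n (FC.ofFIC θ) k (ty B c) j := fun ha =>
    hJ ((MWHP.Comp.c_MWHP_Lt2 n (FC.ofFIC θ) hlr k (ty B c) u v hL).1 ⟨j, hj, ha⟩)
  exact (MWHP.Comp.c_MWL_Key n (FC.ofFIC θ) hlr hnd k (ty B c) (ty B' c) h1 j hj hna).symm

/-- two letters -/
theorem pm2 {l : List ℕ} (h : l.Perm [0, 1]) : l = [0, 1] ∨ l = [1, 0] := by
  have hl := h.length_eq
  match l, h, hl with
  | [a, b], h, _ =>
    have ha : a ∈ [0, 1] := h.mem_iff.1 (by simp)
    have hb : b ∈ [0, 1] := h.mem_iff.1 (by simp)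
    have h0 := h.count_eq 0
    simp only [List.mem_cons, List.not_mem_nil, or_false] at ha hb
    rcases ha with rfl | rfl <;> rcases hb with rfl | rfl
    · exact absurd h0 (by decide)
    · exact Or.inl rfl
    · exact Or.inr rfl
    · exact absurd h0 (by decide)

/-- join primality of the exchange of two light letters -/
theorem jps (hb : ∀ (n : ℕ) (β : FIC), BI n (RR β) → MWGR.BasG n β) (n : ℕ) (β : FIC)
    (hB : BI n (RR β)) (e : Ed) (he : Good n e) (B0 : ℕ → List ℕ) (i : ℕ) (hi : i ≤ 2)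
    (hi0 : B0 i = [0, 1]) (h01 : ∀ j ≤ 2, ∀ c ∈ B0 j, c = 0 ∨ c = 1)
    (hs : ∀ j ≤ 2, j ≠ i → ∃ c, B0 j = [c]) (hok : OkB 2 B0)
    (hok1 : OkB 2 (Function.update B0 i [1, 0]))
    (hL0 : ∃ u v, LL2 2 (ty B0 0) u v) (hL1 : ∃ u v, LL2 2 (ty B0 1) u v)
    (hl : e.l n = asm 2 B0) (hr : e.r n = asm 2 (Function.update B0 i [1, 0])) :
    JPp β (e.l n, e.r n) := by
  have hbas := hb n β hB
  rw [hl, hr]
  apply MWGR.B.jpig β hbas.cap 2 B0 (Function.update B0 i [1, 0]) (fun B => ∀ j ≤ 2, B j = B0 j)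
    hok hok1 (fun _ _ => rfl)
  · intro h
    have h2 := h i hi
    rw [Function.update_self, hi0] at h2
    exact absurd h2 (by decide)
  · intro B B' h hA j hj
    rw [← h j hj]
    exact hA j hj
  · intro θ hθ hn hne B B' hBo hBo' _ hS' hRR hA
    have hJ : ¬ Has n (FC.ofFIC θ) (Bit.J 2) := by
      intro hJ
      have := j2a (bi_mono hθ hB) hJ e he
      unfold EdIn at this
      rw [hl, hr] at this
      exact hne this
    have hNS0 : NS 2 0 := fun h => by omega
    have hNS1 : NS 2 1 := fun h => by omega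
    have tyB : ∀ c, ∀ j ≤ 2, ty B c j = ty B0 c j := by
      intro c j hj
      unfold ty
      rw [hA j hj]
    have trans : ∀ c u v, LL2 2 (ty B0 c) u v → LL2 2 (ty B c) u v := by
      intro c u v h
      have h1 := h.uv
      have h2 := h.vk
      exact ⟨h.uv, h.vk, by rw [tyB c u (by omega)]; exact h.au, by
        rw [tyB c v h2]; exact h.av, fun j hj h3 h4 => by rw [tyB c j hj]; exact h.az j hj h3 h4⟩
    obtain ⟨u0, v0, hL0⟩ := hL0
    obtain ⟨u1, v1, hL1⟩ := hL1
    have c0 := lky n β θ hbas hθ hn hJ 2 B B' hBo hBo' hRR 0 hNS0 u0 v0 (trans 0 u0 v0 hL0)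
    have c1 := lky n β θ hbas hθ hn hJ 2 B B' hBo hBo' hRR 1 hNS1 u1 v1 (trans 1 u1 v1 hL1)
    have perm : ∀ j ≤ 2, (B' j).Perm (B0 j) := by
      intro j hj
      rw [List.perm_iff_count]
      intro c
      by_cases h0 : c = 0
      · subst h0
        have := c0 j hj
        rw [tyB 0 j hj] at this
        exact this
      · by_cases h1 : c = 1
        · subst h1
          have := c1 j hj
          rw [tyB 1 j hj] at this
          exact this
        · rw [List.count_eq_zero_of_not_mem, List.count_eq_zero_of_not_mem]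
          · intro hc
            rcases h01 j hj c hc with h | h
            · exact h0 h
            · exact h1 h
          · intro hc
            obtain ⟨j', hj', hc'⟩ := hS' c ⟨j, hj, hc⟩
            rcases h01 j' hj' c hc' with h | h
            · exact h0 h
            · exact h1 h
    have hne' : ∀ j ≤ 2, j ≠ i → B' j = B0 j := by
      intro j hj hji
      obtain ⟨c, hc⟩ := hs j hj hji
      have := perm j hj
      rw [hc] at this ⊢
      exact List.perm_singleton.1 this
    have hii := perm i hi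
    rw [hi0] at hii
    rcases pm2 hii with h | h
    · intro j hj
      by_cases hji : j = i
      · subst hji
        rw [h, hi0]
      · exact hne' j hj hji
    · exfalso
      apply hne
      have e1 : asm 2 B = asm 2 B0 := asm_congr hA
      have e2 : asm 2 B' = asm 2 (Function.update B0 i [1, 0]) := by
        apply asm_congr
        intro j hj
        by_cases hji : j = i
        · subst hji
          rw [Function.update_self, h]
        · rw [Function.update_of_ne hji]
          exact hne' j hj hji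
      rw [← e1, ← e2]
      exact hRR

/-- blocks from a list -/
def bb (L : List (List ℕ)) : ℕ → List ℕ := fun j => L.getD j []

theorem bb_ok (L : List (List ℕ)) (h : ∀ j ≤ 2, ∀ c ∈ bb L j, (c = 0 ∨ c = 1) ∧
    2 ≤ (bb L 0).count c + (bb L 1).count c + (bb L 2).count c) : OkB 2 (bb L) := by
  constructor
  · intro j hj c hc
    rcases (h j hj c hc).1 with rfl | rfl
    · exact fun h => by omega
    · exact fun h => by omega
  · intro j hj c hc
    have := (h j hj c hc).2
    show 2 ≤ deg 2 (fun j => (bb L j).count c)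
    unfold deg
    rw [Finset.sum_range_succ, Finset.sum_range_succ, Finset.sum_range_one]
    exact this

theorem le2 {P : ℕ → Prop} (h0 : P 0) (h1 : P 1) (h2 : P 2) : ∀ j ≤ 2, P j := by
  intro j hj
  match j, hj with
  | 0, _ => exact h0
  | 1, _ => exact h1
  | 2, _ => exact h2

/-- **JS1** -/
theorem js1 (hb : ∀ (n : ℕ) (β : FIC), BI n (RR β) → MWGR.BasG n β) (n : ℕ) (β : FIC)
    (hB : BI n (RR β)) : JPp β (Ed.s1.l n, Ed.s1.r n) := by
  have e : Function.update (bb [[0, 1], [0], [1]]) 0 [1, 0] = bb [[1, 0], [0], [1]] := by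
    funext j
    rcases j with _ | j
    · rfl
    · rfl
  refine jps hb n β hB Ed.s1 trivial (bb [[0, 1], [0], [1]]) 0 (by omega) rfl
    (le2 (by decide) (by decide) (by decide)) ?_ (bb_ok _ (le2 (by decide) (by decide) (by decide)))
    ?_ ⟨0, 1, ⟨by omega, by omega, rfl, rfl, ?_⟩⟩ ⟨0, 2, ⟨by omega, by omega, rfl, rfl, ?_⟩⟩ rfl rfl
  · exact le2 (fun h => absurd rfl h) (fun _ => ⟨0, rfl⟩) (fun _ => ⟨1, rfl⟩)
  · rw [e]
    exact bb_ok _ (le2 (by decide) (by decide) (by decide))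
  · exact le2 (fun h => absurd rfl h) (fun _ h => absurd rfl h) (fun _ _ => rfl)
  · exact le2 (fun h => absurd rfl h) (fun _ _ => rfl) (fun _ h => absurd rfl h)

/-- **JS2** -/
theorem js2 (hb : ∀ (n : ℕ) (β : FIC), BI n (RR β) → MWGR.BasG n β) (n : ℕ) (β : FIC)
    (hB : BI n (RR β)) : JPp β (Ed.s2.l n, Ed.s2.r n) := by
  have e : Function.update (bb [[0], [0, 1], [1]]) 1 [1, 0] = bb [[0], [1, 0], [1]] := by
    funext j
    rcases j with _ | _ | j
    · rfl
    · rfl
    · rfl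
  refine jps hb n β hB Ed.s2 trivial (bb [[0], [0, 1], [1]]) 1 (by omega) rfl
    (le2 (by decide) (by decide) (by decide)) ?_ (bb_ok _ (le2 (by decide) (by decide) (by decide)))
    ?_ ⟨0, 1, ⟨by omega, by omega, rfl, rfl, ?_⟩⟩ ⟨1, 2, ⟨by omega, by omega, rfl, rfl, ?_⟩⟩ rfl rfl
  · exact le2 (fun _ => ⟨0, rfl⟩) (fun h => absurd rfl h) (fun _ => ⟨1, rfl⟩)
  · rw [e]
    exact bb_ok _ (le2 (by decide) (by decide) (by decide))
  · exact le2 (fun h => absurd rfl h) (fun _ h => absurd rfl h) (fun _ _ => rfl)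
  · exact le2 (fun _ _ => rfl) (fun h => absurd rfl h) (fun _ h => absurd rfl h)

/-- **JS3** -/
theorem js3 (hb : ∀ (n : ℕ) (β : FIC), BI n (RR β) → MWGR.BasG n β) (n : ℕ) (β : FIC)
    (hB : BI n (RR β)) : JPp β (Ed.s3.l n, Ed.s3.r n) := by
  have e : Function.update (bb [[0], [1], [0, 1]]) 2 [1, 0] = bb [[0], [1], [1, 0]] := by
    funext j
    rcases j with _ | _ | _ | j
    · rfl
    · rfl
    · rfl
    · rfl
  refine jps hb n β hB Ed.s3 trivial (bb [[0], [1], [0, 1]]) 2 (by omega) rfl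
    (le2 (by decide) (by decide) (by decide)) ?_ (bb_ok _ (le2 (by decide) (by decide) (by decide)))
    ?_ ⟨0, 2, ⟨by omega, by omega, rfl, rfl, ?_⟩⟩ ⟨1, 2, ⟨by omega, by omega, rfl, rfl, ?_⟩⟩ rfl rfl
  · exact le2 (fun _ => ⟨0, rfl⟩) (fun _ => ⟨1, rfl⟩) (fun h => absurd rfl h)
  · rw [e]
    exact bb_ok _ (le2 (by decide) (by decide) (by decide))
  · exact le2 (fun h => absurd rfl h) (fun _ _ => rfl) (fun _ h => absurd rfl h)
  · exact le2 (fun _ _ => rfl) (fun h => absurd rfl h) (fun _ h => absurd rfl h)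

end Pool.Agent.MWGI.H85
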