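import Pool.Agent.MWGI.Defs

/-!
# Block MWGI: powers of two heavy letters commute

`x^s y^t ≈ y^t x^s` for `s, t ≥ 2` from `x²y² ≈ y²x²`, `F`, `F'` and `x² ≈ x^(n+2)`: for `s, t ≥ 3` both
sides are `≈ y^(t-1) x y x^(s-1)`.
-/

set_option autoImplicit false

namespace Pool.Agent.MWGI.H85

open Pool.Agent.Helper14_MV Pool.Agent.Helper2_MV Pool.Agent.MVO Pool.Agent.MWL Pool.Agent.MWS
open Pool.Agent.MWH Pool.Agent.MWGI

/-- `1^k` -/
abbrev Y1 (k : ℕ) : List ℕ := List.replicate k 1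

/-- two neighbours `0`, `1` occur -/
def Bo (q : List ℕ) : Prop :=
  (∃ q1 q2, q = q1 ++ 0 :: 1 :: q2) ∨ (∃ q1 q2, q = q1 ++ 1 :: 0 :: q2)

theorem Bo.left {q : List ℕ} (h : Bo q) (r : List ℕ) : Bo (r ++ q) := by
  rcases h with ⟨q1, q2, e⟩ | ⟨q1, q2, e⟩
  · exact Or.inl ⟨r ++ q1, q2, by rw [e, List.append_assoc]⟩
  · exact Or.inr ⟨r ++ q1, q2, by rw [e, List.append_assoc]⟩

theorem Bo.right {q : List ℕ} (h : Bo q) (r : List ℕ) : Bo (q ++ r) := by
  rcases h with ⟨q1, q2, e⟩ | ⟨q1, q2, e⟩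
  · exact Or.inl ⟨q1, q2 ++ r, by rw [e]; simp⟩
  · exact Or.inr ⟨q1, q2 ++ r, by rw [e]; simp⟩

theorem Bo.snoc {p : List ℕ} (h : Bo p) (x : ℕ) : Bo (p ++ [x]) := h.right _

section

variable {β : FIC}

/-- one exchange, both letters later -/
theorem fx1 (hF : MVO.Sys.F (RR β)) (p q : List ℕ) (h : Bo q) :
    RR β (p ++ 0 :: 1 :: q) (p ++ 1 :: 0 :: q) := by
  rcases h with ⟨q1, q2, e⟩ | ⟨q1, q2, e⟩
  · have := hF p q1 [] q2 0 1 (by intro a ha; simp at ha)
    rw [e]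
    simpa using this
  · have := hF p q1 [] q2 1 0 (by intro a ha; simp at ha)
    rw [e]
    exact RR.symm (by simpa using this)

/-- one exchange, both letters earlier -/
theorem fx1' (hF : MVO.Sys.F' (RR β)) (p q : List ℕ) (h : Bo p) :
    RR β (p ++ 0 :: 1 :: q) (p ++ 1 :: 0 :: q) := by
  rcases h with ⟨q1, q2, e⟩ | ⟨q1, q2, e⟩
  · have := hF q1 q2 [] q 0 1 (by intro a ha; simp at ha)
    rw [e]
    simpa using this
  · have := hF q1 q2 [] q 1 0 (by intro a ha; simp at ha)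
    rw [e]
    exact RR.symm (by simpa using this)

/-- `0 1^j` -/
theorem fx2 (hF : MVO.Sys.F (RR β)) (j : ℕ) : ∀ (p q : List ℕ), Bo q →
    RR β (p ++ 0 :: (Y1 j ++ q)) (p ++ (Y1 j ++ 0 :: q)) := by
  induction j with
  | zero => intro p q _; simpa using RR.refl (β := β) _
  | succ j ih =>
    intro p q h
    have e1 := fx1 hF p (Y1 j ++ q) (h.left _)
    have e2 := ih (p ++ [1]) q h
    simp only [Y1, List.replicate_succ, List.cons_append, List.append_assoc, List.nil_append]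
      at e1 e2 ⊢
    exact β.trans e1 e2

theorem fx2' (hF : MVO.Sys.F' (RR β)) (j : ℕ) : ∀ (p q : List ℕ), Bo p →
    RR β (p ++ 0 :: (Y1 j ++ q)) (p ++ (Y1 j ++ 0 :: q)) := by
  induction j with
  | zero => intro p q _; simpa using RR.refl (β := β) _
  | succ j ih =>
    intro p q h
    have e1 := fx1' hF p (Y1 j ++ q) h
    have e2 := ih (p ++ [1]) q (h.snoc 1)
    simp only [Y1, List.replicate_succ, List.cons_append, List.append_assoc, List.nil_append]
      at e1 e2 ⊢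
    exact β.trans e1 e2

/-- `0^i 1^j`, both letters later -/
theorem fx (hF : MVO.Sys.F (RR β)) (i j : ℕ) : ∀ (p q : List ℕ), Bo q →
    RR β (p ++ (X i ++ (Y1 j ++ q))) (p ++ (Y1 j ++ (X i ++ q))) := by
  induction i with
  | zero => intro p q _; simpa using RR.refl (β := β) _
  | succ i ih =>
    intro p q h
    have e1 := ih (p ++ [0]) q h
    have e2 := fx2 hF j p (X i ++ q) (h.left _)
    simp only [X, List.replicate_succ, List.cons_append, List.append_assoc, List.nil_append]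
      at e1 e2 ⊢
    exact β.trans e1 e2

theorem fx' (hF : MVO.Sys.F' (RR β)) (i j : ℕ) : ∀ (p q : List ℕ), Bo p →
    RR β (p ++ (X i ++ (Y1 j ++ q))) (p ++ (Y1 j ++ (X i ++ q))) := by
  induction i with
  | zero => intro p q _; simpa using RR.refl (β := β) _
  | succ i ih =>
    intro p q h
    have e1 := ih (p ++ [0]) q (h.snoc 0)
    have e2 := fx2' hF j p (X i ++ q) h
    simp only [X, List.replicate_succ, List.cons_append, List.append_assoc, List.nil_append]
      at e1 e2 ⊢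
    exact β.trans e1 e2

/-- a relation in a context -/
theorem ctx {u v : List ℕ} (h : RR β u v) (p q : List ℕ) : RR β (p ++ (u ++ q)) (p ++ (v ++ q)) :=
  (RR.refl (β := β) p).append (h.append (RR.refl q))

/-- the common word -/
theorem lhs {n : ℕ} (hB : BI n (RR β)) (s t : ℕ) (ht : 1 ≤ t) :
    RR β (X (s + 2) ++ Y1 (t + 2)) (Y1 (t + 1) ++ ([0, 1] ++ X (s + 1))) := by
  obtain ⟨t, rfl⟩ : ∃ t', t = t' + 1 := ⟨t - 1, by omega⟩
  -- (1)
  have a1 : X (s + 2) ++ Y1 (t + 1 + 2) = X s ++ ([0, 0, 1, 1] ++ Y1 (t + 1)) := by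
    rw [show t + 1 + 2 = 2 + (t + 1) by omega]
    simp only [X, Y1, List.replicate_add, List.append_assoc]
    rfl
  have s1 := ctx hB.hh (X s) (Y1 (t + 1))
  have a2 : X s ++ ([1, 1, 0, 0] ++ Y1 (t + 1)) = [] ++ (X s ++ (Y1 2 ++ (([0, 0] ++ Y1 (t + 1))))) := by
    simp [Y1, List.replicate_succ]
  have s2 := fx hB.f s 2 [] ([0, 0] ++ Y1 (t + 1)) (Or.inl ⟨[0], Y1 t, by
    simp [Y1, List.replicate_succ]⟩)
  have a3 : [] ++ (Y1 2 ++ (X s ++ ([0, 0] ++ Y1 (t + 1)))) =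
      [1, 1, 0] ++ (X (s + 1) ++ (Y1 (t + 1) ++ [])) := by
    have : X s ++ [0, 0] = X (s + 2) := by
      rw [show X (s + 2) = X s ++ X 2 from List.replicate_add _ _ _]
      rfl
    have e2 : X (s + 2) = 0 :: X (s + 1) := rfl
    calc [] ++ (Y1 2 ++ (X s ++ ([0, 0] ++ Y1 (t + 1))))
        = Y1 2 ++ ((X s ++ [0, 0]) ++ Y1 (t + 1)) := by simp [Y1]
      _ = _ := by rw [this, e2]; simp [Y1, List.replicate_succ]
  have s3 := fx' hB.f' (s + 1) (t + 1) [1, 1, 0] [] (Or.inr ⟨[1], [], rfl⟩)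
  have a4 : [1, 1, 0] ++ (Y1 (t + 1) ++ (X (s + 1) ++ [])) =
      [1, 1] ++ (X 1 ++ (Y1 t ++ ([1] ++ X (s + 1)))) := by
    have : Y1 (t + 1) = Y1 t ++ [1] := List.replicate_succ' 
    rw [this]
    simp [X]
  have s4 := fx hB.f 1 t [1, 1] ([1] ++ X (s + 1)) (Or.inr ⟨[], X s, by
    simp [X, List.replicate_succ]⟩)
  have a5 : [1, 1] ++ (Y1 t ++ (X 1 ++ ([1] ++ X (s + 1)))) =
      Y1 (t + 1 + 1) ++ ([0, 1] ++ X (s + 1)) := by
    have : Y1 (t + 1 + 1) = [1, 1] ++ Y1 t := rfl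
    rw [this]
    simp [X]
  rw [a1]
  refine β.trans s1 ?_
  rw [a2]
  refine β.trans s2 ?_
  rw [a3]
  refine β.trans s3 ?_
  rw [a4]
  refine β.trans s4 ?_
  rw [a5]
  exact RR.refl _

theorem rhs {n : ℕ} (hB : BI n (RR β)) (s t : ℕ) (ht : 1 ≤ t) :
    RR β (Y1 (t + 2) ++ X (s + 2)) (Y1 (t + 1) ++ ([0, 1] ++ X (s + 1))) := by
  obtain ⟨t, rfl⟩ : ∃ t', t = t' + 1 := ⟨t - 1, by omega⟩
  have a1 : Y1 (t + 1 + 2) ++ X (s + 2) = Y1 (t + 1) ++ ([1, 1, 0, 0] ++ X s) := by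
    rw [show s + 2 = 2 + s by omega]
    simp only [X, Y1, List.replicate_add, List.append_assoc]
    rfl
  have s1 := ctx (RR.symm hB.hh) (Y1 (t + 1)) (X s)
  have a2 : Y1 (t + 1) ++ ([0, 0, 1, 1] ++ X s) = (Y1 (t + 1) ++ [0]) ++ (X 1 ++ (Y1 2 ++ X s)) := by
    simp [X, Y1, List.replicate_succ]
  have s2 := fx' hB.f' 1 2 (Y1 (t + 1) ++ [0]) (X s) (Or.inr ⟨Y1 t, [], by
    have : Y1 (t + 1) = Y1 t ++ [1] := List.replicate_succ' 
    rw [this]
    simp⟩)
  have a3 : (Y1 (t + 1) ++ [0]) ++ (Y1 2 ++ (X 1 ++ X s)) =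
      Y1 (t + 1) ++ (X 1 ++ (Y1 1 ++ ([1] ++ X (s + 1)))) := by
    simp [X, Y1, List.replicate_succ]
  have s3 := fx hB.f 1 1 (Y1 (t + 1)) ([1] ++ X (s + 1)) (Or.inr ⟨[], X s, by
    simp [X, List.replicate_succ]⟩)
  have a4 : Y1 (t + 1) ++ (Y1 1 ++ (X 1 ++ ([1] ++ X (s + 1)))) =
      Y1 (t + 1 + 1) ++ ([0, 1] ++ X (s + 1)) := by
    have : Y1 (t + 1 + 1) = Y1 (t + 1) ++ [1] := List.replicate_succ' 
    rw [this]
    simp [X, Y1]
  rw [a1]
  refine β.trans s1 ?_
  rw [a2]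
  refine β.trans s2 ?_
  rw [a3]
  refine β.trans s3 ?_
  rw [a4]
  exact RR.refl _

/-- exponents `≥ 2` -/
theorem perx {n : ℕ} (hB : BI n (RR β)) (s : ℕ) (hs : 2 ≤ s) (m : ℕ) :
    RR β (X s) (X (s + n * m)) := by
  induction m with
  | zero => simpa using RR.refl (β := β) _
  | succ m ih =>
    refine β.trans ih ?_
    have h := ctx hB.per [] (X (s + n * m - 2))
    have e1 : [] ++ (MWZ.X 2 ++ X (s + n * m - 2)) = X (s + n * m) := by
      rw [show X (s + n * m) = X (2 + (s + n * m - 2)) by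
        congr 1
        omega]
      simp only [X, List.replicate_add, List.nil_append]
    have e2 : [] ++ (MWZ.X (n + 2) ++ X (s + n * m - 2)) = X (s + n * (m + 1)) := by
      rw [show X (s + n * (m + 1)) = X ((n + 2) + (s + n * m - 2)) by
        congr 1
        rw [Nat.mul_succ]
        omega]
      simp only [X, List.replicate_add, List.nil_append]
    rw [e1, e2] at h
    exact h

/-- heavy powers commute -/
theorem hhp {n : ℕ} (hB : BI n (RR β)) (s t : ℕ) (hs : 2 ≤ s) (ht : 2 ≤ t) :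
    RR β (X s ++ Y1 t) (Y1 t ++ X s) := by
  have hn := hB.pos
  have e1 := perx hB s hs 1
  have e2 : RR β (Y1 t) (Y1 (t + n * 1)) := by
    have h := (perx hB t ht 1).sub (fun _ => [1])
    have e : ∀ m : ℕ, (X m).flatMap (fun _ => [1]) = Y1 m := by
      intro m
      induction m with
      | zero => rfl
      | succ m ih =>
        have : X (m + 1) = 0 :: X m := rfl
        rw [this, List.flatMap_cons, ih]
        rfl
    rwa [e, e] at h
  have e3 : RR β (X (s + n * 1) ++ Y1 (t + n * 1)) (Y1 (t + n * 1) ++ X (s + n * 1)) := by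
    have h1 := lhs hB (s + n * 1 - 2) (t + n * 1 - 2) (by omega)
    have h2 := rhs hB (s + n * 1 - 2) (t + n * 1 - 2) (by omega)
    have e4 : s + n * 1 - 2 + 2 = s + n * 1 := by omega
    have e5 : t + n * 1 - 2 + 2 = t + n * 1 := by omega
    rw [e4, e5] at h1 h2
    exact β.trans h1 (RR.symm h2)
  exact β.trans (e1.append e2) (β.trans e3 (RR.symm (e2.append e1)))

/-- heavy powers of two letters commute -/
theorem hha {n : ℕ} (hB : BI n (RR β)) (a b s t : ℕ) (hs : 2 ≤ s) (ht : 2 ≤ t) (p q : List ℕ) :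
    RR β (p ++ (List.replicate s a ++ (List.replicate t b ++ q)))
      (p ++ (List.replicate t b ++ (List.replicate s a ++ q))) := by
  have h := (hhp hB s t hs ht).sub (fun c => if c = 0 then [a] else [b])
  have ea : ∀ m : ℕ, (X m).flatMap (fun c => if c = 0 then [a] else [b]) = List.replicate m a := by
    intro m
    induction m with
    | zero => rfl
    | succ m ih =>
      have : X (m + 1) = 0 :: X m := rfl
      rw [this, List.flatMap_cons, ih]
      rfl
  have eb : ∀ m : ℕ, (Y1 m).flatMap (fun c => if c = 0 then [a] else [b]) = List.replicate m b := by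
    intro m
    induction m with
    | zero => rfl
    | succ m ih =>
      have : Y1 (m + 1) = 1 :: Y1 m := rfl
      rw [this, List.flatMap_cons, ih]
      rfl
  rw [List.flatMap_append, List.flatMap_append, ea, eb] at h
  have h2 := ctx h p q
  simpa only [List.append_assoc] using h2

end

end Pool.Agent.MWGI.H85
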